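import Pool.Agent.X298.AR.Main

/-!
# Arthur type with short strings at all places from an inequality at one place

Let `f` be a joint eigenfunction of the Hecke operators (for instance a cusp form) on `Bun_G(𝔽_q)`, `r` a representation of the
dual group of dimension `N`, and `α x j`, `j < N`, the eigenvalues in `r` of its Satake parameter at the closed point `x` of
degree `deg x`. Two facts: the absolute values are `q_x ^ (w j)` with exponents independent of `x` (`purity`; V. Lafforgue,
L. Lafforgue, Deligne), and, since the adjoint of a Hecke operator is the Hecke operator of the dual representation, the `α x j`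
are stable under `z ↦ 1 / conj z` (`unitarity`). Let the exponents be in `(1/2) ℤ`.

If at ONE point `x` all the eigenvalues have absolute value `< q_x`, then at EVERY point `x'` the eigenvalues are those of
Arthur's parameters with strings of length at most `2`: numbers of absolute value `1`, and pairs `u q_x' ^ (1/2)`,
`u q_x' ^ (-1/2)` with `|u| = 1`; and the number of these pairs is the same at all points. (In `GL_N`: the set `R` of the
nilpotent orbit with the partition `2^a 1^b`.)
-/

set_option autoImplicit false

namespace Pool.Agent.Results.MP_de7261_nt.ShortStringsFromOnePlace

open Pool.Agent.X298.RP Pool.Agent.X298.AR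

theorem result {V : Type} {N : ℕ} (P : Parameters V N) (hw : ∀ j, ∃ m : ℤ, P.w j = m / 2) {v : V}
    (hv : ∀ j, ‖P.α v j‖ < Q P v) :
    (∀ v', pairs P v' = pairs P v) ∧ ∀ v', ShortStrings P v' :=
  main P hw hv

end Pool.Agent.Results.MP_de7261_nt.ShortStringsFromOnePlace
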